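import Mathlib

/-! The extremal function of a multidimensional permutation matrix is at least that of each of its
projections; the largest extremal constant of `k × ⋯ × k` permutation matrices does not decrease
with the dimension. -/

set_option autoImplicit false

open Finset
open scoped ENNReal Classical

namespace Pool.Agent.Results.MP_f36a55_co.Projections

/-- A `d`-dimensional `k × ⋯ × k` permutation matrix, given by the set `P` of the positions of its
`1`-entries: every cross section contains exactly one of them. -/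
def IsPerm {d k : ℕ} (P : Finset (Fin d → Fin k)) : Prop :=
  ∀ (l : Fin d) (i : Fin k), ∃! p, p ∈ P ∧ p l = i

/-- The `d`-dimensional `n × ⋯ × n` matrix with the set `A` of `1`-entries contains the
`k × ⋯ × k` matrix with the set `P` of `1`-entries: for suitable indices
`j l 0 < ⋯ < j l (k - 1)` in every coordinate `l`, the entry of `A` corresponding to every
`1`-entry of `P` is `1`. -/
def Contains {d n k : ℕ} (A : Finset (Fin d → Fin n)) (P : Finset (Fin d → Fin k)) : Prop :=
  ∃ j : Fin d → Fin k → Fin n, (∀ l, StrictMono (j l)) ∧ ∀ p ∈ P, (fun l => j l (p l)) ∈ A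

/-- `f n P`: the maximum number of `1`-entries of an `n × ⋯ × n` matrix which avoids `P`. -/
noncomputable def f {d k : ℕ} (n : ℕ) (P : Finset (Fin d → Fin k)) : ℕ :=
  (univ.filter fun A : Finset (Fin d → Fin n) => ¬ Contains A P).sup card

/-- `M d k`: the supremum of `f n P / n ^ (d - 1)` over all `n ≥ 1` and all `d`-dimensional
`k × ⋯ × k` permutation matrices `P`. -/
noncomputable def M (d k : ℕ) : ℝ≥0∞ :=
  ⨆ (n : ℕ) (_ : 1 ≤ n) (P : Finset (Fin d → Fin k)) (_ : IsPerm P),
    (f n P : ℝ≥0∞) / (n : ℝ≥0∞) ^ (d - 1)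

/-- doubling the first coordinate -/
def lift {d k : ℕ} (p : Fin (d + 1) → Fin k) : Fin (d + 2) → Fin k := Fin.cons (p 0) p

lemma lift_perm {d k : ℕ} {P : Finset (Fin (d + 1) → Fin k)} (hP : IsPerm P) :
    IsPerm (P.image lift) := by
  intro l i
  have key : ∀ l' : Fin (d + 1), (∀ p : Fin (d + 1) → Fin k, lift p l = p l') →
      ∃! q, q ∈ P.image lift ∧ q l = i := by
    intro l' hl'
    obtain ⟨p, ⟨hp, hpi⟩, hu⟩ := hP l' i
    refine ⟨lift p, ⟨mem_image_of_mem _ hp, by rw [hl', hpi]⟩, ?_⟩
    rintro q ⟨hq, hqi⟩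
    obtain ⟨p', hp', rfl⟩ := mem_image.1 hq
    rw [hl'] at hqi
    rw [hu p' ⟨hp', hqi⟩]
  induction l using Fin.cases with
  | zero => exact key 0 fun p => rfl
  | succ l => exact key l fun p => Fin.cons_succ _ _ _

lemma tail_image {d k : ℕ} (P : Finset (Fin (d + 1) → Fin k)) :
    (P.image lift).image Fin.tail = P := by
  have h : ∀ p : Fin (d + 1) → Fin k, Fin.tail (lift p) = p := fun p => Fin.tail_cons _ _
  ext p
  constructor
  · intro hp
    obtain ⟨q, hq, rfl⟩ := mem_image.1 hp
    obtain ⟨p', hp', rfl⟩ := mem_image.1 hq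
    rw [h]
    exact hp'
  · intro hp
    exact mem_image.2 ⟨lift p, mem_image_of_mem _ hp, h p⟩

/-- The projection argument: if `P'` is a matrix in dimension `d + 1` whose projection to the last
`d` coordinates is `P`, then `f n P' ≥ n * f n P`. -/
lemma mul_le {d k n : ℕ} {P : Finset (Fin d → Fin k)} {P' : Finset (Fin (d + 1) → Fin k)}
    (h : P'.image Fin.tail = P) : n * f n P ≤ f n P' := by
  rcases (univ.filter fun A : Finset (Fin d → Fin n) => ¬ Contains A P).eq_empty_or_nonempty with
    he | hne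
  · unfold f
    rw [he]
    simp
  · obtain ⟨A, hA, hAeq⟩ := exists_mem_eq_sup _ hne card
    have hA' : ¬ Contains A P := (mem_filter.1 hA).2
    have hf : f n P = A.card := hAeq
    set A' : Finset (Fin (d + 1) → Fin n) := univ.filter fun x => Fin.tail x ∈ A with hA'def
    have hcard : A'.card = n * A.card := by
      have h1 : A' = (univ ×ˢ A).image (fun z : Fin n × (Fin d → Fin n) =>
          (Fin.cons z.1 z.2 : Fin (d + 1) → Fin n)) := by
        ext x
        rw [hA'def, mem_filter, mem_image]
        constructor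
        · rintro ⟨_, hx⟩
          exact ⟨(x 0, Fin.tail x), mem_product.2 ⟨mem_univ _, hx⟩, Fin.cons_self_tail x⟩
        · rintro ⟨z, hz, rfl⟩
          refine ⟨mem_univ _, ?_⟩
          rw [Fin.tail_cons]
          exact (mem_product.1 hz).2
      rw [h1, card_image_of_injective, card_product, card_univ, Fintype.card_fin]
      rintro ⟨a, x⟩ ⟨b, y⟩ hxy
      have := Fin.cons_injective2 hxy
      exact Prod.ext this.1 this.2
    have hav : ¬ Contains A' P' := by
      rintro ⟨j, hj, hjP⟩
      apply hA'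
      refine ⟨fun l => j l.succ, fun l => hj _, fun p hp => ?_⟩
      rw [← h] at hp
      obtain ⟨p', hp', rfl⟩ := mem_image.1 hp
      exact (mem_filter.1 (hjP p' hp')).2
    rw [hf, ← hcard]
    exact le_sup (f := card) (mem_filter.2 ⟨mem_univ _, hav⟩)

lemma M_le_succ (d k : ℕ) : M (d + 1) k ≤ M (d + 2) k := by
  unfold M
  refine iSup₂_le fun n hn => iSup₂_le fun P hP => ?_
  have h1 : n * f n P ≤ f n (P.image lift) := mul_le (tail_image P)
  have hn0 : (n : ℝ≥0∞) ≠ 0 := by
    exact_mod_cast (by omega : n ≠ 0)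
  have hnt : (n : ℝ≥0∞) ≠ ∞ := ENNReal.natCast_ne_top n
  refine le_trans ?_ (le_iSup₂_of_le n hn (le_iSup₂_of_le (P.image lift) (lift_perm hP) le_rfl))
  have h2 : (n : ℝ≥0∞) * (f n P : ℝ≥0∞) ≤ (f n (P.image lift) : ℝ≥0∞) := by
    exact_mod_cast h1
  calc (f n P : ℝ≥0∞) / (n : ℝ≥0∞) ^ (d + 1 - 1)
      = (n : ℝ≥0∞) * (f n P : ℝ≥0∞) / (n : ℝ≥0∞) ^ (d + 2 - 1) := by
        rw [show d + 2 - 1 = (d + 1 - 1) + 1 by omega, pow_succ', ENNReal.mul_div_mul_left _ _ hn0 hnt]
    _ ≤ _ := ENNReal.div_le_div_right h2 _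

lemma proj_perm {d e k : ℕ} (σ : Fin e → Fin d) {P : Finset (Fin d → Fin k)} (hP : IsPerm P) :
    IsPerm (P.image fun p => p ∘ σ) := by
  intro l i
  obtain ⟨p, ⟨hp, hpi⟩, hu⟩ := hP (σ l) i
  refine ⟨p ∘ σ, ⟨mem_image_of_mem _ hp, hpi⟩, ?_⟩
  rintro q ⟨hq, hqi⟩
  obtain ⟨p', hp', rfl⟩ := mem_image.1 hq
  have h : p' = p := hu p' ⟨hp', hqi⟩
  rw [h]

/-- the array with prescribed coordinates along `σ` -/
noncomputable def glue {d e n : ℕ} (σ : Fin e → Fin d) (y : Fin e → Fin n)
    (z : {i : Fin d // i ∉ Set.range σ} → Fin n) : Fin d → Fin n :=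
  fun i => if h : i ∈ Set.range σ then y h.choose else z ⟨i, h⟩

lemma glue_comp {d e n : ℕ} {σ : Fin e → Fin d} (hσ : Function.Injective σ) (y : Fin e → Fin n)
    (z : {i : Fin d // i ∉ Set.range σ} → Fin n) : glue σ y z ∘ σ = y := by
  funext l
  have h : σ l ∈ Set.range σ := ⟨l, rfl⟩
  show (if h : σ l ∈ Set.range σ then y h.choose else z ⟨σ l, h⟩) = y l
  rw [dif_pos h, hσ h.choose_spec]

lemma glue_out {d e n : ℕ} {σ : Fin e → Fin d} (y : Fin e → Fin n)
    (z : {i : Fin d // i ∉ Set.range σ} → Fin n) (i : {i : Fin d // i ∉ Set.range σ}) :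
    glue σ y z i = z i := dif_neg i.2

lemma proj_mul_le {d e k n : ℕ} {σ : Fin e → Fin d} (hσ : Function.Injective σ)
    (P : Finset (Fin d → Fin k)) : n ^ (d - e) * f n (P.image fun p => p ∘ σ) ≤ f n P := by
  rcases (univ.filter fun A : Finset (Fin e → Fin n) =>
      ¬ Contains A (P.image fun p => p ∘ σ)).eq_empty_or_nonempty with he | hne
  · have h0 : f n (P.image fun p => p ∘ σ) = 0 := by
      unfold f
      rw [he]
      simp
    rw [h0, mul_zero]
    exact Nat.zero_le _
  · obtain ⟨A, hA, hAeq⟩ := exists_mem_eq_sup _ hne card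
    have hA' : ¬ Contains A (P.image fun p => p ∘ σ) := (mem_filter.1 hA).2
    have hf : f n (P.image fun p => p ∘ σ) = A.card := hAeq
    set A' : Finset (Fin d → Fin n) := univ.filter fun x => x ∘ σ ∈ A with hA'def
    have hcard : n ^ (d - e) * A.card ≤ A'.card := by
      have h1 : (A ×ˢ (univ : Finset ({i : Fin d // i ∉ Set.range σ} → Fin n))).card
          = n ^ (d - e) * A.card := by
        rw [card_product, card_univ, Fintype.card_fun, Fintype.card_fin, mul_comm]
        congr 2
        have h2 := Fintype.card_subtype_compl (fun i : Fin d => i ∈ Set.range σ)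
        have h3 : Fintype.card {i : Fin d // i ∈ Set.range σ} = e := by
          have := Set.card_range_of_injective hσ
          rw [Fintype.card_fin] at this
          convert this
        rw [h3, Fintype.card_fin] at h2
        exact h2
      rw [← h1]
      apply card_le_card_of_injOn (fun w => glue σ w.1 w.2)
      · rintro ⟨y, z⟩ hw
        have hy : y ∈ A := (mem_product.1 hw).1
        show glue σ y z ∈ A'
        rw [hA'def, mem_filter]
        exact ⟨mem_univ _, by rw [glue_comp hσ]; exact hy⟩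
      · rintro ⟨y, z⟩ _ ⟨y', z'⟩ _ h
        have h' : glue σ y z = glue σ y' z' := h
        have hy : y = y' := by
          rw [← glue_comp hσ y z, ← glue_comp hσ y' z', h']
        have hz : z = z' := by
          funext i
          rw [← glue_out y z i, ← glue_out y' z' i, h']
        rw [hy, hz]
    have hav : ¬ Contains A' P := by
      rintro ⟨j, hj, hjP⟩
      apply hA'
      refine ⟨fun l => j (σ l), fun l => hj _, fun q hq => ?_⟩
      obtain ⟨p, hp, rfl⟩ := mem_image.1 hq
      exact (mem_filter.1 (hjP p hp)).2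
    rw [hf]
    exact hcard.trans (le_sup (f := card) (mem_filter.2 ⟨mem_univ _, hav⟩))

/-- For every `d`-dimensional permutation matrix `P` and every choice `σ` of `e` of the coordinates,
the projection of `P` to these coordinates is an `e`-dimensional permutation matrix and
`f n P / n ^ (d - 1)` is at least `f n (projection) / n ^ (e - 1)` for all `n`. Consequently `M d k`
is nondecreasing in `d`; in particular `M d k ≥ M 2 k` for all `d ≥ 2`. -/
theorem result :
    (∀ (d e k : ℕ) (σ : Fin e → Fin d), Function.Injective σ →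
      ∀ P : Finset (Fin d → Fin k), IsPerm P →
        IsPerm (P.image fun p => p ∘ σ) ∧
        ∀ n : ℕ, n ^ (d - e) * f n (P.image fun p => p ∘ σ) ≤ f n P) ∧
    ∀ (k d d' : ℕ), 1 ≤ d → d ≤ d' → M d k ≤ M d' k := by
  constructor
  · intro d e k σ hσ P hP
    exact ⟨proj_perm σ hP, fun n => proj_mul_le hσ P⟩
  · intro k d d' hd hdd
    induction d', hdd using Nat.le_induction with
    | base => exact le_rfl
    | succ e he ih =>
      obtain ⟨e, rfl⟩ : ∃ e', e = e' + 1 := ⟨e - 1, by omega⟩
      exact ih.trans (M_le_succ e k)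

end Pool.Agent.Results.MP_f36a55_co.Projections
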